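import Pool.Agent.Work.MP_e024c5_h27.Defs
import Pool.Agent.Work.MP_972ac7_al_tau.r2

/-! # Block CIRC -/

namespace Pool.Agent.Work.MP_e024c5_h27

theorem CIRC_block (hTRI : S_TRI) : S_CIRC := by
  intro ε hε
  obtain ⟨C0, hC0, hr2⟩ := TauQ.r2_proof (ε / 6) (by positivity)
  have h2 : (0 : ℝ) < 2 ^ ε := Real.rpow_pos_of_pos (by norm_num) ε
  refine ⟨2 + C0 * 2 ^ ε, by positivity, fun c r hr => ?_⟩
  have h1 : 1 ≤ (r + 1) ^ ε := Real.one_le_rpow (by linarith) hε.le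
  have hCp : 0 < C0 * 2 ^ ε := mul_pos hC0 h2
  rcases Nat.lt_or_ge (onCircle c r).ncard 3 with h | h
  · have h3 : ((onCircle c r).ncard : ℝ) ≤ 2 := by exact_mod_cast Nat.lt_succ_iff.1 h
    nlinarith [mul_nonneg hCp.le (sub_nonneg.2 h1)]
  · obtain ⟨M, hM0, hM, hN⟩ := hTRI c r hr h
    have hMr : (0 : ℝ) ≤ M := Nat.cast_nonneg M
    have h3 : ((onCircle c r).ncard : ℝ) ≤ C0 * (M : ℝ) ^ (ε / 6) :=
      (Nat.cast_le.2 hN).trans (hr2 M hM0)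
    have h4 : (M : ℝ) ^ (ε / 6) ≤ 2 ^ ε * (r + 1) ^ ε := by
      have e1 : (64 * r ^ 6 : ℝ) = (2 * r) ^ (6 : ℝ) := by
        rw [show (6 : ℝ) = ((6 : ℕ) : ℝ) by norm_num, Real.rpow_natCast]; ring
      calc (M : ℝ) ^ (ε / 6) ≤ (64 * r ^ 6) ^ (ε / 6) :=
            Real.rpow_le_rpow hMr hM (by positivity)
        _ = (2 * r) ^ ε := by
            rw [e1, ← Real.rpow_mul (by positivity)]
            congr 1
            ring
        _ = 2 ^ ε * r ^ ε := Real.mul_rpow (by norm_num) hr.le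
        _ ≤ 2 ^ ε * (r + 1) ^ ε := by
            refine mul_le_mul_of_nonneg_left ?_ h2.le
            exact Real.rpow_le_rpow hr.le (by linarith) hε.le
    calc ((onCircle c r).ncard : ℝ) ≤ C0 * (M : ℝ) ^ (ε / 6) := h3
      _ ≤ C0 * (2 ^ ε * (r + 1) ^ ε) := mul_le_mul_of_nonneg_left h4 hC0.le
      _ ≤ (2 + C0 * 2 ^ ε) * (r + 1) ^ ε := by nlinarith [h1]

end Pool.Agent.Work.MP_e024c5_h27

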