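import Pool.Agent.Work.MP_e024c5_h27.Defs

/-! # Block CLOSE -/

namespace Pool.Agent.Work.MP_e024c5_h27

theorem CLOSE_block (hFIN : S_FIN) : S_CLOSE := by
  classical
  intro c r hr
  have hF := hFIN c (r + 1)
  let G : Finset (ℤ × ℤ) := hF.toFinset.filter fun p => r ^ 2 < dsq c p
  rcases G.eq_empty_or_nonempty with hG | hG
  · refine ⟨r + 1, by linarith, fun p hp => ?_⟩
    have hp' : dsq c p < (r + 1) ^ 2 := hp
    by_contra hcon
    have hcon' : r ^ 2 < dsq c p := not_le.1 hcon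
    have : p ∈ G := Finset.mem_filter.2 ⟨hF.mem_toFinset.2 hp'.le, hcon'⟩
    rw [hG] at this
    exact absurd this (Finset.notMem_empty p)
  · obtain ⟨q, hq, hmin⟩ := Finset.exists_min_image G (dsq c) hG
    obtain ⟨hq1, hq2⟩ := Finset.mem_filter.1 hq
    have hq3 : dsq c q ≤ (r + 1) ^ 2 := hF.mem_toFinset.1 hq1
    have h0 : 0 ≤ dsq c q := (sq_nonneg r).trans hq2.le
    refine ⟨Real.sqrt (dsq c q), ?_, fun p hp => ?_⟩
    · exact Real.lt_sqrt_of_sq_lt hq2
    · have hp' : dsq c p < dsq c q := by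
        have : dsq c p < Real.sqrt (dsq c q) ^ 2 := hp
        rwa [Real.sq_sqrt h0] at this
      by_contra hcon
      have hcon' : r ^ 2 < dsq c p := not_le.1 hcon
      have hpG : p ∈ G := Finset.mem_filter.2 ⟨hF.mem_toFinset.2 (hp'.le.trans hq3), hcon'⟩
      exact absurd (hmin p hpG) (not_le.2 hp')

end Pool.Agent.Work.MP_e024c5_h27

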