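import Pool.Agent.Work.MP_e024c5_h27.Defs

/-!
# Block CPT: some disc of radius `R_n` holds at most `n` lattice points
-/

namespace Pool.Agent.Work.MP_e024c5_h27

open Filter Topology

namespace BCPT

/-- translation of the lattice -/
def tr (a b : ℤ) (p : ℤ × ℤ) : ℤ × ℤ := (p.1 - a, p.2 - b)

theorem tr_inj (a b : ℤ) : Function.Injective (tr a b) := by
  intro p q h
  have h1 : p.1 - a = q.1 - a := congrArg Prod.fst h
  have h2 : p.2 - b = q.2 - b := congrArg Prod.snd h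
  exact Prod.ext (by omega) (by omega)

theorem dsq_tr (c : ℝ × ℝ) (a b : ℤ) (p : ℤ × ℤ) :
    dsq (c.1 - a, c.2 - b) (tr a b p) = dsq c p := by
  unfold dsq tr
  push_cast
  ring

theorem inside_tr (c : ℝ × ℝ) (a b : ℤ) (r : ℝ) :
    inside (c.1 - a, c.2 - b) r = tr a b '' inside c r := by
  ext p
  constructor
  · intro hp
    refine ⟨(p.1 + a, p.2 + b), ?_, ?_⟩
    · have h := dsq_tr c a b (p.1 + a, p.2 + b)
      have e : tr a b (p.1 + a, p.2 + b) = p := by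
        unfold tr
        exact Prod.ext (by simp) (by simp)
      rw [e] at h
      change dsq c (p.1 + a, p.2 + b) < r ^ 2
      rw [← h]
      exact hp
    · unfold tr
      exact Prod.ext (by simp) (by simp)
  · rintro ⟨q, hq, rfl⟩
    change dsq _ _ < r ^ 2
    rw [dsq_tr]
    exact hq

theorem ncard_tr (c : ℝ × ℝ) (a b : ℤ) (r : ℝ) :
    (inside (c.1 - a, c.2 - b) r).ncard = (inside c r).ncard := by
  rw [inside_tr]
  exact Set.ncard_image_of_injective _ (tr_inj a b)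

theorem dsq_tendsto (p : ℤ × ℤ) (u : ℕ → ℝ × ℝ) (c : ℝ × ℝ) (h : Tendsto u atTop (𝓝 c)) :
    Tendsto (fun k => dsq (u k) p) atTop (𝓝 (dsq c p)) := by
  have h1 : Continuous (fun c : ℝ × ℝ => dsq c p) := by
    unfold dsq
    fun_prop
  exact (h1.tendsto c).comp h

end BCPT

open BCPT in
theorem CPT_block (hFIN : S_FIN) (hMANY : S_MANY) (hPOS : S_POS) : S_CPT := by
  intro n
  obtain ⟨R, hR⟩ : ∃ R : ℝ, R = Rsup n := ⟨_, rfl⟩
  have hR0 : 0 < R := by rw [hR]; exact (hPOS n).1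
  rw [← hR]
  obtain ⟨A, hA⟩ : ∃ A : Set ℝ, A = {r : ℝ | ∃ c : ℝ × ℝ, Encloses n c r} := ⟨_, rfl⟩
  have hRA : R = sSup A := by rw [hR, hA]; rfl
  have hbdd : BddAbove A := by
    refine ⟨Real.sqrt n + 1, ?_⟩
    intro r hr
    rw [hA] at hr
    obtain ⟨c, hc⟩ := hr
    exact hMANY c r n hc.2.le
  have hne : A.Nonempty := by
    rw [Set.nonempty_iff_ne_empty]
    intro h
    rw [h, Real.sSup_empty] at hRA
    linarith
  have hseq : ∀ k : ℕ, ∃ (c : ℝ × ℝ) (r : ℝ), c ∈ Set.Icc ((0, 0) : ℝ × ℝ) (1, 1) ∧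
      R - 1 / ((k : ℝ) + 1) < r ∧ r ≤ R ∧ (inside c r).ncard = n := by
    intro k
    have h1 : R - 1 / ((k : ℝ) + 1) < sSup A := by
      rw [← hRA]
      have : 0 < 1 / ((k : ℝ) + 1) := by positivity
      linarith
    obtain ⟨r, hr, hlt⟩ := exists_lt_of_lt_csSup hne h1
    have hle : r ≤ R := by rw [hRA]; exact le_csSup hbdd hr
    rw [hA] at hr
    obtain ⟨c, hc⟩ := hr
    refine ⟨(c.1 - (⌊c.1⌋ : ℤ), c.2 - (⌊c.2⌋ : ℤ)), r, ?_, hlt, hle, ?_⟩
    · rw [Set.mem_Icc, Prod.le_def, Prod.le_def]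
      have a1 := Int.floor_le c.1
      have a2 := Int.lt_floor_add_one c.1
      have b1 := Int.floor_le c.2
      have b2 := Int.lt_floor_add_one c.2
      refine ⟨⟨?_, ?_⟩, ⟨?_, ?_⟩⟩
      · change (0 : ℝ) ≤ c.1 - (⌊c.1⌋ : ℤ)
        linarith
      · change (0 : ℝ) ≤ c.2 - (⌊c.2⌋ : ℤ)
        linarith
      · change c.1 - (⌊c.1⌋ : ℤ) ≤ (1 : ℝ)
        linarith
      · change c.2 - (⌊c.2⌋ : ℤ) ≤ (1 : ℝ)
        linarith
    · rw [ncard_tr]
      exact hc.2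
  choose u ρ hu h1 h2 h3 using hseq
  obtain ⟨c, _, φ, hφ, hlim⟩ := isCompact_Icc.tendsto_subseq hu
  refine ⟨c, ?_⟩
  have hρ : Tendsto ρ atTop (𝓝 R) := by
    have ha : Tendsto (fun k : ℕ => R - 1 / ((k : ℝ) + 1)) atTop (𝓝 R) := by
      have := (tendsto_const_nhds (x := R)).sub
        (tendsto_one_div_add_atTop_nhds_zero_nat (𝕜 := ℝ))
      rwa [sub_zero] at this
    exact tendsto_of_tendsto_of_tendsto_of_le_of_le ha tendsto_const_nhds
      (fun k => (h1 k).le) h2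
  have hρφ : Tendsto (fun k => ρ (φ k) ^ 2) atTop (𝓝 (R ^ 2)) :=
    (hρ.comp hφ.tendsto_atTop).pow 2
  have hfin : (inside c R).Finite := by
    refine (hFIN c R).subset ?_
    intro p hp
    have hp' : dsq c p < R ^ 2 := hp
    exact hp'.le
  have hev : ∀ᶠ k in atTop, ∀ p ∈ inside c R, dsq (u (φ k)) p < ρ (φ k) ^ 2 := by
    rw [eventually_all_finite hfin]
    intro p hp
    exact (dsq_tendsto p _ c hlim).eventually_lt hρφ hp
  obtain ⟨k, hk⟩ := hev.exists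
  have hsub : inside c R ⊆ inside (u (φ k)) (ρ (φ k)) := fun p hp => hk p hp
  have hfin2 : (inside (u (φ k)) (ρ (φ k))).Finite := by
    refine (hFIN (u (φ k)) (ρ (φ k))).subset ?_
    intro p hp
    have hp' : dsq (u (φ k)) p < ρ (φ k) ^ 2 := hp
    exact hp'.le
  rw [← h3 (φ k)]
  exact Set.ncard_le_ncard hsub hfin2

end Pool.Agent.Work.MP_e024c5_h27
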