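import Pool.Agent.Work.MP_e024c5_h27.Defs

/-!
# Block DENSE: centres with different distances to different lattice points (typed by helper53)
-/

set_option autoImplicit false

namespace Pool.Agent.Work.MP_e024c5_h27

theorem DENSE_block : S_DENSE := by
  intro c δ hδ
  obtain ⟨a, ha, ha1, ha2⟩ := exists_irrational_btwn
    (show c.1 - δ / 2 < c.1 + δ / 2 by linarith)
  let f : ℤ × ℤ × ℤ → ℝ := fun t => ((t.1 : ℝ) + (t.2.1 : ℝ) * a) / (t.2.2 : ℝ)
  have hS : (Set.range f).Countable := Set.countable_range f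
  obtain ⟨b, hb, hb1, hb2⟩ := (hS.dense_compl ℝ).exists_between
    (show c.2 - δ / 2 < c.2 + δ / 2 by linarith)
  refine ⟨(a, b), ?_, ?_⟩
  · change (a - c.1) ^ 2 + (b - c.2) ^ 2 < δ ^ 2
    have h1 : (a - c.1) ^ 2 < (δ / 2) ^ 2 := sq_lt_sq' (by linarith) (by linarith)
    have h2 : (b - c.2) ^ 2 < (δ / 2) ^ 2 := sq_lt_sq' (by linarith) (by linarith)
    have h3 : 0 < δ ^ 2 := by positivity
    have h4 : (δ / 2) ^ 2 = δ ^ 2 / 4 := by ring
    rw [h4] at h1 h2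
    linarith
  · rintro ⟨p1, p2⟩ ⟨q1, q2⟩ h
    have h1 : ((p1 : ℝ) - a) ^ 2 + ((p2 : ℝ) - b) ^ 2 = ((q1 : ℝ) - a) ^ 2 + ((q2 : ℝ) - b) ^ 2 := h
    have h2 : p2 = q2 := by
      by_contra hne
      apply hb
      have hw : (2 * ((p2 : ℝ) - (q2 : ℝ))) ≠ 0 := by
        have h3 : (p2 : ℝ) - (q2 : ℝ) ≠ 0 := by
          intro h4
          apply hne
          have h5 : (p2 : ℝ) = (q2 : ℝ) := by linarith
          exact_mod_cast h5
        exact mul_ne_zero two_ne_zero h3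
      refine ⟨(p1 ^ 2 - q1 ^ 2 + p2 ^ 2 - q2 ^ 2, -(2 * (p1 - q1)), 2 * (p2 - q2)), ?_⟩
      change (((p1 ^ 2 - q1 ^ 2 + p2 ^ 2 - q2 ^ 2 : ℤ) : ℝ) + ((-(2 * (p1 - q1)) : ℤ) : ℝ) * a) /
        ((2 * (p2 - q2) : ℤ) : ℝ) = b
      push_cast
      rw [div_eq_iff hw]
      linear_combination h1
    subst h2
    have h3 : p1 = q1 := by
      by_contra hne
      apply ha
      have h4 : (p1 : ℝ) - (q1 : ℝ) ≠ 0 := by
        intro h4
        apply hne
        have h5 : (p1 : ℝ) = (q1 : ℝ) := by linarith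
        exact_mod_cast h5
      have h5 : ((p1 : ℝ) - q1) * ((p1 : ℝ) + q1 - 2 * a) = 0 := by linear_combination h1
      have h6 : (p1 : ℝ) + q1 - 2 * a = 0 := (mul_eq_zero.1 h5).resolve_left h4
      refine ⟨((p1 : ℚ) + (q1 : ℚ)) / 2, ?_⟩
      push_cast
      linarith
    rw [h3]

end Pool.Agent.Work.MP_e024c5_h27
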