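import Pool.Agent.Work.MP_e024c5_h27.Defs

/-!
# GROW: the count takes every larger value
-/

set_option autoImplicit false

namespace Pool.Agent.Work.MP_e024c5_h27

theorem GROW_block (hFIN : S_FIN) (hCLOSE : S_CLOSE) (hOPEN : S_OPEN) (hMANY : S_MANY) : S_GROW := by
  intro c hinj r n hr hn
  set T : Set ℝ := {s : ℝ | r ≤ s ∧ (inside c s).ncard ≤ n} with hT
  have hrT : r ∈ T := ⟨le_rfl, hn⟩
  have hbdd : BddAbove T := ⟨Real.sqrt n + 1, fun s hs => hMANY c s n hs.2⟩
  have hne : T.Nonempty := ⟨r, hrT⟩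
  set r' : ℝ := sSup T with hr'
  have hrr' : r ≤ r' := le_csSup hbdd hrT
  have hr'0 : 0 < r' := lt_of_lt_of_le hr hrr'
  -- (a) the count at `r'` is at most `n`
  have ha : (inside c r').ncard ≤ n := by
    obtain ⟨s, hs0, hs1, hs2⟩ := hOPEN c r' hr'0
    obtain ⟨t, htT, hst⟩ := exists_lt_of_lt_csSup hne (show s < sSup T from hs1)
    have ht' : t ≤ r' := le_csSup hbdd htT
    rw [← hs2 t hst ht']
    exact htT.2
  refine ⟨r', hrr', le_antisymm ha ?_⟩
  -- (b) otherwise a larger disc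
  by_contra hlt
  have hlt' : (inside c r').ncard < n := not_le.1 hlt
  obtain ⟨s, hs1, hs2⟩ := hCLOSE c r' hr'0.le
  have hfin : (inside c r').Finite := (hFIN c r').subset (fun p hp => le_of_lt (show dsq c p < r' ^ 2 from hp))
  have hsub : inside c s ⊆ inside c r' ∪ {p | dsq c p = r' ^ 2} := by
    intro p hp
    have h1 : dsq c p ≤ r' ^ 2 := hs2 hp
    rcases lt_or_eq_of_le h1 with h | h
    · exact Or.inl h
    · exact Or.inr h
  have hss : ({p : ℤ × ℤ | dsq c p = r' ^ 2} : Set (ℤ × ℤ)).Subsingleton := by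
    intro p hp q hq
    exact hinj p q (Eq.trans (show dsq c p = r' ^ 2 from hp) (show dsq c q = r' ^ 2 from hq).symm)
  have hcard1 : ({p : ℤ × ℤ | dsq c p = r' ^ 2} : Set (ℤ × ℤ)).ncard ≤ 1 :=
    (Set.ncard_le_one hss.finite).2 (fun a ha b hb => hss ha hb)
  have hcount : (inside c s).ncard ≤ n := by
    calc (inside c s).ncard ≤ (inside c r' ∪ {p | dsq c p = r' ^ 2}).ncard :=
          Set.ncard_le_ncard hsub (hfin.union hss.finite)
      _ ≤ (inside c r').ncard + ({p : ℤ × ℤ | dsq c p = r' ^ 2} : Set (ℤ × ℤ)).ncard :=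
          Set.ncard_union_le _ _
      _ ≤ n := by omega
  have hsT : s ∈ T := ⟨hrr'.trans hs1.le, hcount⟩
  exact absurd (le_csSup hbdd hsT) (not_le.2 hs1)

end Pool.Agent.Work.MP_e024c5_h27
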