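import Pool.Agent.Work.MP_e024c5_h27.Defs

/-!
# Block LIM (helper45)
-/

set_option autoImplicit false

namespace Pool.Agent.Work.MP_e024c5_h27

theorem LIM_sub {c c' : ℝ × ℝ} {r1 d : ℝ} (hr : 0 < r1) (hd : 0 < d)
    (h : (c'.1 - c.1) ^ 2 + (c'.2 - c.2) ^ 2 < d ^ 2) : inside c' r1 ⊆ inside c (r1 + d) := by
  intro p hp
  have h1 : ((p.1 : ℝ) - c'.1) ^ 2 + ((p.2 : ℝ) - c'.2) ^ 2 < r1 ^ 2 := hp
  show ((p.1 : ℝ) - c.1) ^ 2 + ((p.2 : ℝ) - c.2) ^ 2 < (r1 + d) ^ 2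
  obtain ⟨u1, hu1⟩ : ∃ u, u = (p.1 : ℝ) - c'.1 := ⟨_, rfl⟩
  obtain ⟨u2, hu2⟩ : ∃ u, u = (p.2 : ℝ) - c'.2 := ⟨_, rfl⟩
  obtain ⟨v1, hv1⟩ : ∃ u, u = c'.1 - c.1 := ⟨_, rfl⟩
  obtain ⟨v2, hv2⟩ : ∃ u, u = c'.2 - c.2 := ⟨_, rfl⟩
  rw [← hu1, ← hu2] at h1
  rw [← hv1, ← hv2] at h
  have e1 : (p.1 : ℝ) - c.1 = u1 + v1 := by rw [hu1, hv1]; ring
  have e2 : (p.2 : ℝ) - c.2 = u2 + v2 := by rw [hu2, hv2]; ring
  rw [e1, e2]
  have h3 : (u1 * v1 + u2 * v2) ^ 2 ≤ (u1 ^ 2 + u2 ^ 2) * (v1 ^ 2 + v2 ^ 2) := by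
    nlinarith [sq_nonneg (u1 * v2 - u2 * v1)]
  have h4 : (u1 ^ 2 + u2 ^ 2) * (v1 ^ 2 + v2 ^ 2) ≤ r1 ^ 2 * d ^ 2 :=
    mul_le_mul h1.le h.le (by positivity) (by positivity)
  have h5 : u1 * v1 + u2 * v2 ≤ r1 * d := by
    have h6 : (u1 * v1 + u2 * v2) ^ 2 ≤ (r1 * d) ^ 2 := by
      rw [mul_pow]
      exact h3.trans h4
    exact (abs_le_of_sq_le_sq' h6 (by positivity)).2
  nlinarith

theorem p_LIM (hFIN : S_FIN) (hDENSE : S_DENSE) (hGROW : S_GROW) (hMANY : S_MANY) : S_LIM := by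
  intro c r n hr hc
  have hbdd : BddAbove {r : ℝ | ∃ c : ℝ × ℝ, Encloses n c r} := by
    refine ⟨Real.sqrt n + 1, ?_⟩
    rintro s ⟨c, -, hs⟩
    exact hMANY c s n hs.le
  have key : ∀ r1 : ℝ, 0 < r1 → r1 < r → r1 ≤ Rsup n := by
    intro r1 h0 h1
    obtain ⟨c', h2, h3⟩ := hDENSE c (r - r1) (by linarith)
    have hsub : inside c' r1 ⊆ inside c r := by
      have := LIM_sub h0 (show (0 : ℝ) < r - r1 by linarith) h2
      rwa [show r1 + (r - r1) = r by ring] at this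
    have hfin : (inside c r).Finite := (hFIN c r).subset (fun p (hp : dsq c p < r ^ 2) => show dsq c p ≤ r ^ 2 from le_of_lt hp)
    have hcard : (inside c' r1).ncard ≤ n := (Set.ncard_le_ncard hsub hfin).trans hc
    obtain ⟨r', h4, h5⟩ := hGROW c' h3 r1 n h0 hcard
    exact h4.trans (le_csSup hbdd ⟨c', lt_of_lt_of_le h0 h4, h5⟩)
  by_contra hcon
  push Not at hcon
  have h1 := key (max ((Rsup n + r) / 2) (r / 2)) (lt_of_lt_of_le (by linarith) (le_max_right _ _))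
    (max_lt (by linarith) (by linarith))
  have h2 := (le_max_left ((Rsup n + r) / 2) (r / 2)).trans h1
  linarith

end Pool.Agent.Work.MP_e024c5_h27
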