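import Pool.Agent.Work.MP_e024c5_h27.Defs

/-!
# MP_e024c5_nt: block MAIN (helper26)

A run of `L` non-MC numbers from `m` on has `L ≤ C (m + 1)^ε`.
-/

namespace Pool.Agent.Work.MP_e024c5_h27

theorem MAIN_block (hPOS : S_POS) (hSTEP : S_STEP) (hRUN : S_RUN) (hCIRC : S_CIRC) : S_MAIN := by
  intro ε hε
  obtain ⟨C, hC, hcirc⟩ := hCIRC ε hε
  refine ⟨C * (3 : ℝ) ^ ε, mul_pos hC (Real.rpow_pos_of_pos (by norm_num) _), ?_⟩
  intro m L hL
  rcases Nat.eq_zero_or_pos L with h0 | hLpos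
  · subst h0
    have h1 : (0 : ℝ) ≤ (3 : ℝ) ^ ε := Real.rpow_nonneg (by norm_num) _
    have h2 : (0 : ℝ) ≤ ((m : ℝ) + 1) ^ ε := Real.rpow_nonneg (by positivity) _
    have h3 : (0 : ℝ) ≤ C * (3 : ℝ) ^ ε * ((m : ℝ) + 1) ^ ε := by positivity
    simpa using h3
  · rcases Nat.eq_zero_or_pos m with hm | hm
    · subst hm
      exact absurd hSTEP.2.1 (by simpa using hL 0 hLpos)
    · obtain ⟨n, rfl⟩ : ∃ n, m = n + 1 := ⟨m - 1, by omega⟩
      obtain ⟨c, -, hon⟩ := hRUN n L hL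
      obtain ⟨hR0, hR1⟩ := hPOS n
      have hc := hcirc c (Rsup n) hR0
      have h1 : (L : ℝ) ≤ ((onCircle c (Rsup n)).ncard : ℝ) := by
        exact_mod_cast (Nat.le_succ L).trans hon
      have hs : Real.sqrt n ≤ (n : ℝ) + 1 := by
        rw [Real.sqrt_le_left (by positivity)]
        have h0 : (0 : ℝ) ≤ n := Nat.cast_nonneg n
        nlinarith
      have hb : Rsup n + 1 ≤ 3 * (((n + 1 : ℕ) : ℝ) + 1) := by
        push_cast
        have h0 : (0 : ℝ) ≤ n := Nat.cast_nonneg n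
        linarith
      have h2 : (Rsup n + 1) ^ ε ≤ (3 * (((n + 1 : ℕ) : ℝ) + 1)) ^ ε :=
        Real.rpow_le_rpow (by linarith) hb hε.le
      rw [Real.mul_rpow (by norm_num) (by positivity)] at h2
      calc (L : ℝ) ≤ ((onCircle c (Rsup n)).ncard : ℝ) := h1
        _ ≤ C * (Rsup n + 1) ^ ε := hc
        _ ≤ C * ((3 : ℝ) ^ ε * (((n + 1 : ℕ) : ℝ) + 1) ^ ε) :=
            mul_le_mul_of_nonneg_left h2 hC.le
        _ = C * (3 : ℝ) ^ ε * (((n + 1 : ℕ) : ℝ) + 1) ^ ε := by ring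

end Pool.Agent.Work.MP_e024c5_h27
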