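import Pool.Agent.Work.MP_e024c5_h27.Defs

/-!
# Block MANY: a large disc holds many lattice points
-/

set_option autoImplicit false

namespace Pool.Agent.Work.MP_e024c5_h27

/-- the integers in an open interval -/
theorem MANY_card (a b : ℝ) : b - a - 1 ≤ ((Finset.Ioo ⌊a⌋ ⌈b⌉).card : ℝ) := by
  rw [Int.card_Ioo]
  have h1 : b ≤ (⌈b⌉ : ℝ) := Int.le_ceil b
  have h2 : (⌊a⌋ : ℝ) ≤ a := Int.floor_le a
  have h3 : ((⌈b⌉ - ⌊a⌋ - 1 : ℤ) : ℝ) ≤ (((⌈b⌉ - ⌊a⌋ - 1).toNat : ℕ) : ℝ) := by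
    exact_mod_cast Int.self_le_toNat (⌈b⌉ - ⌊a⌋ - 1)
  push_cast at h3
  linarith

theorem MANY_block (hF : S_FIN) : S_MANY := by
  intro c r n hn
  by_contra hr
  push Not at hr
  have hs : 0 ≤ Real.sqrt n := Real.sqrt_nonneg _
  have hr0 : 0 < r := by linarith
  set h : ℝ := 7 * r / 10 with hh
  set A : Finset ℤ := Finset.Ioo ⌊c.1 - h⌋ ⌈c.1 + h⌉ with hA
  set B : Finset ℤ := Finset.Ioo ⌊c.2 - h⌋ ⌈c.2 + h⌉ with hB
  have hcA : Real.sqrt n < (A.card : ℝ) := by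
    have := MANY_card (c.1 - h) (c.1 + h)
    rw [← hA] at this
    linarith
  have hcB : Real.sqrt n < (B.card : ℝ) := by
    have := MANY_card (c.2 - h) (c.2 + h)
    rw [← hB] at this
    linarith
  have hfin : (inside c r).Finite := by
    refine (hF c r).subset fun p hp => ?_
    have h1 : dsq c p < r ^ 2 := hp
    exact h1.le
  have hsub : ((A ×ˢ B : Finset (ℤ × ℤ)) : Set (ℤ × ℤ)) ⊆ inside c r := by
    intro p hp
    rw [Finset.coe_product, Set.mem_prod, Finset.mem_coe, Finset.mem_coe, hA, hB, Finset.mem_Ioo,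
      Finset.mem_Ioo, Int.floor_lt, Int.lt_ceil, Int.floor_lt, Int.lt_ceil] at hp
    obtain ⟨⟨h1, h2⟩, h3, h4⟩ := hp
    show ((p.1 : ℝ) - c.1) ^ 2 + ((p.2 : ℝ) - c.2) ^ 2 < r ^ 2
    have e1 : ((p.1 : ℝ) - c.1) ^ 2 < h ^ 2 := by
      apply sq_lt_sq'
      · linarith
      · linarith
    have e2 : ((p.2 : ℝ) - c.2) ^ 2 < h ^ 2 := by
      apply sq_lt_sq'
      · linarith
      · linarith
    have e3 : h ^ 2 + h ^ 2 ≤ r ^ 2 := by
      rw [hh]
      nlinarith [sq_nonneg r]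
    linarith
  have hcard : A.card * B.card ≤ n := by
    have h1 := Set.ncard_le_ncard hsub hfin
    rw [Set.ncard_coe_finset, Finset.card_product] at h1
    exact h1.trans hn
  have h2 : (A.card : ℝ) * (B.card : ℝ) ≤ n := by exact_mod_cast hcard
  have h3 : Real.sqrt n * Real.sqrt n < (A.card : ℝ) * (B.card : ℝ) :=
    mul_lt_mul'' hcA hcB hs hs
  rw [Real.mul_self_sqrt (Nat.cast_nonneg n)] at h3
  linarith

end Pool.Agent.Work.MP_e024c5_h27
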