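import Pool.Agent.Work.MP_e024c5_h27.Defs

set_option autoImplicit false

namespace Pool.Agent.Work.MP_e024c5_h27

theorem p_OPEN (hFIN : S_FIN) : S_OPEN := by
  intro c r hr
  have hsub : ∀ t : ℝ, 0 ≤ t → t ≤ r → inside c t ⊆ inside c r := by
    intro t ht htr p hp
    have hp' : dsq c p < t ^ 2 := hp
    have h2 : t ^ 2 ≤ r ^ 2 := by gcongr
    exact lt_of_lt_of_le hp' h2
  have hfin : (inside c r).Finite := (hFIN c r).subset fun p hp => by
    have hp' : dsq c p < r ^ 2 := hp
    exact hp'.le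
  rcases Set.eq_empty_or_nonempty (inside c r) with he | hne
  · refine ⟨0, le_rfl, hr, fun t ht htr => ?_⟩
    refine Set.Subset.antisymm (hsub t ht.le htr) ?_
    rw [he]
    exact Set.empty_subset _
  · obtain ⟨q, hq, hmax⟩ := Set.exists_max_image _ (dsq c) hfin hne
    have hq0 : 0 ≤ dsq c q := by unfold dsq; positivity
    have hq' : dsq c q < r ^ 2 := hq
    refine ⟨Real.sqrt (dsq c q), Real.sqrt_nonneg _, (Real.sqrt_lt' hr).2 hq', fun t ht htr => ?_⟩
    have ht0 : 0 < t := lt_of_le_of_lt (Real.sqrt_nonneg _) ht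
    refine Set.Subset.antisymm (hsub t ht0.le htr) ?_
    intro p hp
    have h1 : dsq c p ≤ dsq c q := hmax p hp
    have h2 : dsq c q < t ^ 2 := (Real.sqrt_lt' ht0).1 ht
    exact lt_of_le_of_lt h1 h2

end Pool.Agent.Work.MP_e024c5_h27
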