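import Pool.Agent.Work.MP_e024c5_h27.Defs

/-!
# MP_e024c5_nt, block POS (typed by helper98)
-/

set_option autoImplicit false

namespace Pool.Agent.Work.MP_e024c5_h27

theorem POS_half (x : ℤ) : (1 : ℝ) / 4 ≤ ((x : ℝ) - 1 / 2) ^ 2 := by
  have h : 0 ≤ x * (x - 1) := by
    rcases le_or_gt x 0 with h | h
    · nlinarith
    · nlinarith
  have h' : (0 : ℝ) ≤ (x : ℝ) * ((x : ℝ) - 1) := by exact_mod_cast h
  nlinarith

theorem POS_low (hLIM : S_LIM) (n : ℕ) : 1 / 2 ≤ Rsup n := by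
  apply hLIM ((1 : ℝ) / 2, (1 : ℝ) / 2) (1 / 2) n (by norm_num)
  have h : inside ((1 : ℝ) / 2, (1 : ℝ) / 2) (1 / 2) = ∅ := by
    ext p
    simp only [inside, dsq, Set.mem_setOf_eq, Set.mem_empty_iff_false, iff_false, not_lt]
    have h1 := POS_half p.1
    have h2 := POS_half p.2
    norm_num at h1 h2 ⊢
    linarith
  rw [h, Set.ncard_empty]
  exact Nat.zero_le n

theorem p_POS (hLIM : S_LIM) (hMANY : S_MANY) : S_POS := by
  intro n
  have h0 := POS_low hLIM n
  refine ⟨by linarith, ?_⟩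
  unfold Rsup at h0 ⊢
  rcases Set.eq_empty_or_nonempty {r : ℝ | ∃ c : ℝ × ℝ, Encloses n c r} with he | hne
  · rw [he, Real.sSup_empty] at h0
    norm_num at h0
  · apply csSup_le hne
    rintro r ⟨c, hc⟩
    exact hMANY c r n hc.2.le

end Pool.Agent.Work.MP_e024c5_h27
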