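import Pool.Agent.Work.MP_e024c5_h27.Defs

/-!
# MP_e024c5_nt, block RUN
-/

set_option autoImplicit false

namespace Pool.Agent.Work.MP_e024c5_h27

theorem p_RUN (hFIN : S_FIN) (hCLOSE : S_CLOSE) (hLIM : S_LIM) (hCPT : S_CPT) (hSTEP : S_STEP)
    (hPOS : S_POS) : S_RUN := by
  intro n L hL
  have hR : ∀ j ≤ L, Rsup (n + j) = Rsup n := by
    intro j
    induction j with
    | zero => intro _; rfl
    | succ j ih =>
      intro hj
      have h1 := hL j (by omega)
      have e : n + 1 + j = (n + j) + 1 := by omega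
      rw [e] at h1
      have h2 := hSTEP.2.2 (n + j) h1
      have e2 : n + (j + 1) = (n + j) + 1 := by omega
      rw [e2, h2]
      exact ih (by omega)
  obtain ⟨c, hc⟩ := hCPT n
  refine ⟨c, hc, ?_⟩
  by_contra hcon
  push Not at hcon
  have hpos := (hPOS n).1
  obtain ⟨s, hs, hsub⟩ := hCLOSE c (Rsup n) hpos.le
  have hsub2 : inside c s ⊆ inside c (Rsup n) ∪ onCircle c (Rsup n) := by
    intro p hp
    have h1 : dsq c p ≤ (Rsup n) ^ 2 := hsub hp
    rcases lt_or_eq_of_le h1 with h2 | h2
    · exact Or.inl h2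
    · exact Or.inr h2
  have hfin : (inside c (Rsup n) ∪ onCircle c (Rsup n)).Finite := by
    apply (hFIN c (Rsup n)).subset
    rintro p (hp | hp)
    · exact (show dsq c p < (Rsup n) ^ 2 from hp).le
    · exact (show dsq c p = (Rsup n) ^ 2 from hp).le
  have h3 : (inside c s).ncard ≤ n + L := by
    have h4 := Set.ncard_le_ncard hsub2 hfin
    have h5 := Set.ncard_union_le (inside c (Rsup n)) (onCircle c (Rsup n))
    omega
  have h6 := hLIM c s (n + L) (by linarith) h3
  rw [hR L le_rfl] at h6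
  linarith

end Pool.Agent.Work.MP_e024c5_h27
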