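import Pool.Agent.Work.MP_e024c5_h27.Defs

/-!
# MP_e024c5_nt, block STEP: `R_n` is nondecreasing and constant on the runs
-/

namespace Pool.Agent.Work.MP_e024c5_h27

theorem STEP_block (hLIM : S_LIM) (hCPT : S_CPT) (hPOS : S_POS) : S_STEP := by
  have hmono : ∀ n : ℕ, Rsup n ≤ Rsup (n + 1) := by
    intro n
    obtain ⟨c, hc⟩ := hCPT n
    exact hLIM c (Rsup n) (n + 1) (hPOS n).1 (by omega)
  refine ⟨hmono, ?_, ?_⟩
  · obtain ⟨c, hc⟩ := hCPT 0
    exact ⟨c, (hPOS 0).1, by omega⟩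
  · intro n hn
    obtain ⟨c, hc⟩ := hCPT (n + 1)
    refine le_antisymm (hLIM c (Rsup (n + 1)) n (hPOS (n + 1)).1 ?_) (hmono n)
    by_contra hcon
    exact hn ⟨c, (hPOS (n + 1)).1, by omega⟩

end Pool.Agent.Work.MP_e024c5_h27
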