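import Pool.Agent.Work.MP_e024c5_h27.B_FIN
import Pool.Agent.Work.MP_e024c5_h27.B_DENSE
import Pool.Agent.Work.MP_e024c5_h27.B_CLOSE
import Pool.Agent.Work.MP_e024c5_h27.B_OPEN
import Pool.Agent.Work.MP_e024c5_h27.B_MANY
import Pool.Agent.Work.MP_e024c5_h27.B_GROW
import Pool.Agent.Work.MP_e024c5_h27.B_LIM
import Pool.Agent.Work.MP_e024c5_h27.B_POS
import Pool.Agent.Work.MP_e024c5_h27.B_CPT
import Pool.Agent.Work.MP_e024c5_h27.B_STEP
import Pool.Agent.Work.MP_e024c5_h27.B_RUN
import Pool.Agent.Work.MP_e024c5_h27.B_TRI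
import Pool.Agent.Work.MP_e024c5_h27.B_CIRC
import Pool.Agent.Work.MP_e024c5_h27.B_MAIN

namespace Pool.Agent.Work.MP_e024c5_h27

theorem fin : S_FIN := p_FIN
theorem dense : S_DENSE := DENSE_block
theorem close : S_CLOSE := CLOSE_block fin
theorem open' : S_OPEN := p_OPEN fin
theorem many : S_MANY := MANY_block fin
theorem grow : S_GROW := GROW_block fin close open' many
theorem lim : S_LIM := p_LIM fin dense grow many
theorem pos : S_POS := p_POS lim many
theorem cpt : S_CPT := CPT_block fin many pos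
theorem step : S_STEP := STEP_block lim cpt pos
theorem run : S_RUN := p_RUN fin close lim cpt step pos
theorem tri : S_TRI := TRI_block fin
theorem circ : S_CIRC := CIRC_block tri
theorem main_thm : S_MAIN := MAIN_block pos step run circ

end Pool.Agent.Work.MP_e024c5_h27
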