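import Pool.Agent.Work.MP_e024c5_h27.Defs

/-!
# Block FIN: every closed disc holds finitely many lattice points
-/

namespace Pool.Agent.Work.MP_e024c5_h27

theorem FIN_aux (a r : ℝ) (x : ℤ) (h : ((x : ℝ) - a) ^ 2 ≤ r ^ 2) :
    x ∈ Set.Icc ⌈a - |r|⌉ ⌊a + |r|⌋ := by
  have h1 : |(x : ℝ) - a| ≤ |r| := sq_le_sq.1 h
  have h2 := abs_le.1 h1
  exact ⟨Int.ceil_le.2 (by linarith [h2.1]), Int.le_floor.2 (by linarith [h2.2])⟩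

theorem p_FIN : S_FIN := by
  intro c r
  refine ((Set.finite_Icc ⌈c.1 - |r|⌉ ⌊c.1 + |r|⌋).prod (Set.finite_Icc ⌈c.2 - |r|⌉ ⌊c.2 + |r|⌋)).subset ?_
  intro p hp
  have h : ((p.1 : ℝ) - c.1) ^ 2 + ((p.2 : ℝ) - c.2) ^ 2 ≤ r ^ 2 := hp
  exact ⟨FIN_aux c.1 r p.1 (by nlinarith [sq_nonneg ((p.2 : ℝ) - c.2)]),
    FIN_aux c.2 r p.2 (by nlinarith [sq_nonneg ((p.1 : ℝ) - c.1)])⟩

end Pool.Agent.Work.MP_e024c5_h27
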