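import Pool.Agent.Work.MP_e024c5_h27.Defs

set_option autoImplicit false

namespace Pool.Agent.Work.MP_e024c5_h27

theorem TRI_fin (M : ℕ) : {x : ℤ × ℤ | x.1 ^ 2 + x.2 ^ 2 = (M : ℤ)}.Finite := by
  refine ((Set.finite_Icc (-(M : ℤ)) (M : ℤ)).prod (Set.finite_Icc (-(M : ℤ)) (M : ℤ))).subset ?_
  rintro ⟨x, y⟩ h
  have h' : x ^ 2 + y ^ 2 = (M : ℤ) := h
  have hx : |x| ≤ (M : ℤ) := by
    have h1 : |x| ≤ x ^ 2 := by
      rw [← sq_abs]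
      nlinarith [abs_nonneg x, Int.one_le_abs (z := x),
        (by by_cases hx : x = 0
            · rw [hx]; simp
            · nlinarith [Int.one_le_abs hx] : |x| ≤ |x| ^ 2)]
    nlinarith [sq_nonneg y]
  have hy : |y| ≤ (M : ℤ) := by
    have h1 : |y| ≤ y ^ 2 := by
      rw [← sq_abs]
      by_cases hy : y = 0
      · rw [hy]; simp
      · nlinarith [Int.one_le_abs hy]
    nlinarith [sq_nonneg x]
  exact ⟨Set.mem_Icc.2 (abs_le.1 hx), Set.mem_Icc.2 (abs_le.1 hy)⟩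

theorem TRI_block (_hFIN : S_FIN) : S_TRI := by
  intro c r hr h3
  have hfin : (onCircle c r).Finite := Set.finite_of_ncard_pos (by omega)
  obtain ⟨p1, p2, p3, hp1, hp2, hp3, h12, h13, h23⟩ := (Set.two_lt_ncard_iff hfin).1 (by omega)
  obtain ⟨x1, y1⟩ := p1
  obtain ⟨x2, y2⟩ := p2
  obtain ⟨x3, y3⟩ := p3
  have e1 : ((x1 : ℝ) - c.1) ^ 2 + ((y1 : ℝ) - c.2) ^ 2 = r ^ 2 := hp1
  have e2 : ((x2 : ℝ) - c.1) ^ 2 + ((y2 : ℝ) - c.2) ^ 2 = r ^ 2 := hp2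
  have e3 : ((x3 : ℝ) - c.1) ^ 2 + ((y3 : ℝ) - c.2) ^ 2 = r ^ 2 := hp3
  obtain ⟨a1, ha1⟩ : ∃ a1 : ℤ, a1 = x2 - x1 := ⟨_, rfl⟩
  obtain ⟨a2, ha2⟩ : ∃ a2 : ℤ, a2 = y2 - y1 := ⟨_, rfl⟩
  obtain ⟨b1, hb1⟩ : ∃ b1 : ℤ, b1 = x3 - x1 := ⟨_, rfl⟩
  obtain ⟨b2, hb2⟩ : ∃ b2 : ℤ, b2 = y3 - y1 := ⟨_, rfl⟩
  obtain ⟨u, hu⟩ : ∃ u : ℝ, u = c.1 - x1 := ⟨_, rfl⟩
  obtain ⟨v, hv⟩ : ∃ v : ℝ, v = c.2 - y1 := ⟨_, rfl⟩
  have ha1' : (a1 : ℝ) = x2 - x1 := by rw [ha1]; push_cast; ring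
  have ha2' : (a2 : ℝ) = y2 - y1 := by rw [ha2]; push_cast; ring
  have hb1' : (b1 : ℝ) = x3 - x1 := by rw [hb1]; push_cast; ring
  have hb2' : (b2 : ℝ) = y3 - y1 := by rw [hb2]; push_cast; ring
  have huv : u ^ 2 + v ^ 2 = r ^ 2 := by rw [hu, hv]; linarith
  have hA : (a1 : ℝ) ^ 2 + a2 ^ 2 = 2 * (a1 * u + a2 * v) := by
    rw [ha1', ha2', hu, hv]; nlinarith
  have hB : (b1 : ℝ) ^ 2 + b2 ^ 2 = 2 * (b1 * u + b2 * v) := by
    rw [hb1', hb2', hu, hv]; nlinarith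
  set D : ℤ := a1 * b2 - a2 * b1 with hD
  set A : ℤ := (a1 ^ 2 + a2 ^ 2) * b2 - (b1 ^ 2 + b2 ^ 2) * a2 with hAA
  set B : ℤ := a1 * (b1 ^ 2 + b2 ^ 2) - b1 * (a1 ^ 2 + a2 ^ 2) with hBB
  have hDr : (D : ℝ) = a1 * b2 - a2 * b1 := by rw [hD]; push_cast; ring
  have hAr : (A : ℝ) = 2 * D * u := by
    rw [hAA, hDr]; push_cast; rw [hA, hB]; ring
  have hBr : (B : ℝ) = 2 * D * v := by
    rw [hBB, hDr]; push_cast; rw [hA, hB]; ring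
  have hapos : 0 < a1 ^ 2 + a2 ^ 2 := by
    by_contra hc
    have h0 : a1 = 0 ∧ a2 = 0 := by
      constructor
      · nlinarith [sq_nonneg a1, sq_nonneg a2]
      · nlinarith [sq_nonneg a1, sq_nonneg a2]
    apply h12
    rw [Prod.mk.injEq]
    constructor <;> omega
  have hbpos : 0 < b1 ^ 2 + b2 ^ 2 := by
    by_contra hc
    have h0 : b1 = 0 ∧ b2 = 0 := by
      constructor
      · nlinarith [sq_nonneg b1, sq_nonneg b2]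
      · nlinarith [sq_nonneg b1, sq_nonneg b2]
    apply h13
    rw [Prod.mk.injEq]
    constructor <;> omega
  have hD0 : D ≠ 0 := by
    intro h0
    have hA0 : A = 0 := by
      have : (A : ℝ) = 0 := by rw [hAr, h0]; simp
      exact_mod_cast this
    have hB0 : B = 0 := by
      have : (B : ℝ) = 0 := by rw [hBr, h0]; simp
      exact_mod_cast this
    set P : ℤ := a1 ^ 2 + a2 ^ 2 with hP
    set Q : ℤ := b1 ^ 2 + b2 ^ 2 with hQ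
    have k1 : P * b2 = Q * a2 := by linarith
    have k2 : P * b1 = Q * a1 := by linarith
    have k3 : P ^ 2 * Q = Q ^ 2 * P := by
      calc P ^ 2 * Q = (P * b1) ^ 2 + (P * b2) ^ 2 := by rw [hQ]; ring
        _ = (Q * a1) ^ 2 + (Q * a2) ^ 2 := by rw [k1, k2]
        _ = Q ^ 2 * P := by rw [hP]; ring
    have k4 : P = Q := by
      have h5 : P * Q * (P - Q) = 0 := by linarith [k3, (by ring : P * Q * (P - Q) = P ^ 2 * Q - Q ^ 2 * P)]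
      rcases mul_eq_zero.1 h5 with h6 | h6
      · rcases mul_eq_zero.1 h6 with h7 | h7
        · omega
        · omega
      · omega
    rw [k4] at k1 k2
    have k5 : b2 = a2 := mul_left_cancel₀ hbpos.ne' k1
    have k6 : b1 = a1 := mul_left_cancel₀ hbpos.ne' k2
    apply h23
    rw [Prod.mk.injEq]
    constructor <;> omega
  have hDr0 : (D : ℝ) ≠ 0 := by exact_mod_cast hD0
  -- the number
  obtain ⟨M, hM⟩ : ∃ M : ℕ, (M : ℤ) = A ^ 2 + B ^ 2 :=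
    ⟨(A ^ 2 + B ^ 2).toNat, Int.toNat_of_nonneg (by positivity)⟩
  have hMr : (M : ℝ) = 4 * (D : ℝ) ^ 2 * r ^ 2 := by
    have h1 : ((M : ℤ) : ℝ) = (A : ℝ) ^ 2 + (B : ℝ) ^ 2 := by rw [hM]; push_cast; ring
    rw [Int.cast_natCast] at h1
    rw [h1, hAr, hBr, ← huv]
    ring
  have hle : ∀ s t : ℝ, s ^ 2 + t ^ 2 = 2 * (s * u + t * v) → s ^ 2 + t ^ 2 ≤ 4 * r ^ 2 := by
    intro s t hst
    have h1 : (s ^ 2 + t ^ 2) ^ 2 ≤ (s ^ 2 + t ^ 2) * (4 * r ^ 2) := by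
      have h2 : (s ^ 2 + t ^ 2) ^ 2 = 4 * (s * u + t * v) ^ 2 := by
        calc (s ^ 2 + t ^ 2) ^ 2 = (2 * (s * u + t * v)) ^ 2 := by rw [← hst]
          _ = 4 * (s * u + t * v) ^ 2 := by ring
      rw [h2, ← huv]
      nlinarith [sq_nonneg (s * v - t * u)]
    by_contra hc
    push Not at hc
    have h3 : 0 < s ^ 2 + t ^ 2 := by nlinarith [sq_nonneg r]
    nlinarith
  have hD2 : (D : ℝ) ^ 2 ≤ 16 * r ^ 4 := by
    have h1 : (D : ℝ) ^ 2 ≤ ((a1 : ℝ) ^ 2 + a2 ^ 2) * ((b1 : ℝ) ^ 2 + b2 ^ 2) := by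
      rw [hDr]; nlinarith [sq_nonneg ((a1 : ℝ) * b1 + a2 * b2)]
    have h2 := hle a1 a2 hA
    have h3 := hle b1 b2 hB
    have h4 : ((a1 : ℝ) ^ 2 + a2 ^ 2) * ((b1 : ℝ) ^ 2 + b2 ^ 2) ≤ (4 * r ^ 2) * (4 * r ^ 2) :=
      mul_le_mul h2 h3 (by positivity) (by positivity)
    calc _ ≤ _ := h1
      _ ≤ _ := h4
      _ = 16 * r ^ 4 := by ring
  refine ⟨M, ?_, ?_, ?_⟩
  · have h1 : (0 : ℝ) < M := by rw [hMr]; positivity
    exact_mod_cast h1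
  · rw [hMr]
    calc 4 * (D : ℝ) ^ 2 * r ^ 2 ≤ 4 * (16 * r ^ 4) * r ^ 2 := by gcongr
      _ = 64 * r ^ 6 := by ring
  · have hinj : Function.Injective (fun p : ℤ × ℤ =>
        (2 * D * (p.1 - x1) - A, 2 * D * (p.2 - y1) - B)) := by
      rintro ⟨s, t⟩ ⟨s', t'⟩ h
      simp only [Prod.mk.injEq] at h
      obtain ⟨h1, h2⟩ := h
      have h2D : (2 : ℤ) * D ≠ 0 := mul_ne_zero (by norm_num) hD0
      have h3 : s - x1 = s' - x1 := mul_left_cancel₀ h2D (by linarith)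
      have h4 : t - y1 = t' - y1 := mul_left_cancel₀ h2D (by linarith)
      rw [Prod.mk.injEq]
      constructor <;> omega
    rw [← Set.ncard_image_of_injective (onCircle c r) hinj]
    have hcard : Nat.card {x : ℤ × ℤ // x.1 ^ 2 + x.2 ^ 2 = (M : ℤ)} =
        {x : ℤ × ℤ | x.1 ^ 2 + x.2 ^ 2 = (M : ℤ)}.ncard := rfl
    rw [hcard]
    refine Set.ncard_le_ncard ?_ (TRI_fin M)
    rintro _ ⟨⟨s, t⟩, hst, rfl⟩
    have h1 : ((s : ℝ) - c.1) ^ 2 + ((t : ℝ) - c.2) ^ 2 = r ^ 2 := hst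
    have h2 : ((((2 * D * (s - x1) - A) ^ 2 + (2 * D * (t - y1) - B) ^ 2 : ℤ)) : ℝ) = ((M : ℤ) : ℝ) := by
      push_cast
      rw [hAr, hBr, hMr, ← h1, hu, hv]
      ring
    exact_mod_cast h2

end Pool.Agent.Work.MP_e024c5_h27
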