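import Mathlib

/-!
# MP_e024c5_nt: definitions

Circles in the plane and the lattice points they enclose (problem MP_e024c5_nt).
-/

namespace Pool.Agent.Work.MP_e024c5_h27

/-- The square of the distance from the point `c` of the plane to the lattice point `p`. -/
def dsq (c : ℝ × ℝ) (p : ℤ × ℤ) : ℝ := ((p.1 : ℝ) - c.1) ^ 2 + ((p.2 : ℝ) - c.2) ^ 2

/-- The lattice points enclosed by the circle with centre `c` and radius `r` (the points of `ℤ²`
in the open disc). -/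
def inside (c : ℝ × ℝ) (r : ℝ) : Set (ℤ × ℤ) := {p | dsq c p < r ^ 2}

/-- The circle with centre `c` and radius `r > 0` encloses exactly `n` lattice points. -/
def Encloses (n : ℕ) (c : ℝ × ℝ) (r : ℝ) : Prop := 0 < r ∧ (inside c r).ncard = n

/-- `R_n`: the supremum of the radii of the circles that enclose exactly `n` lattice points. -/
noncomputable def Rsup (n : ℕ) : ℝ := sSup {r : ℝ | ∃ c : ℝ × ℝ, Encloses n c r}

/-- `n` is an MC number: the supremum `R_n` is attained. -/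
def MC (n : ℕ) : Prop := ∃ c : ℝ × ℝ, Encloses n c (Rsup n)

/-- The lattice points on the circle with centre `c` and radius `r`. -/
def onCircle (c : ℝ × ℝ) (r : ℝ) : Set (ℤ × ℤ) := {p | dsq c p = r ^ 2}

/-- FIN: every closed disc holds finitely many lattice points. -/
def S_FIN : Prop := ∀ (c : ℝ × ℝ) (r : ℝ), {p : ℤ × ℤ | dsq c p ≤ r ^ 2}.Finite

/-- DENSE: arbitrarily near every point there is a point with different distances to different
lattice points. -/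
def S_DENSE : Prop :=
  ∀ (c : ℝ × ℝ) (δ : ℝ), 0 < δ → ∃ c' : ℝ × ℝ, (c'.1 - c.1) ^ 2 + (c'.2 - c.2) ^ 2 < δ ^ 2 ∧
    ∀ p q : ℤ × ℤ, dsq c' p = dsq c' q → p = q

/-- CLOSE: a slightly larger open disc holds the lattice points of the closed disc only. -/
def S_CLOSE : Prop :=
  ∀ (c : ℝ × ℝ) (r : ℝ), 0 ≤ r → ∃ s : ℝ, r < s ∧ inside c s ⊆ {p | dsq c p ≤ r ^ 2}

/-- OPEN: a slightly smaller disc holds the same lattice points. -/
def S_OPEN : Prop :=
  ∀ (c : ℝ × ℝ) (r : ℝ), 0 < r → ∃ s : ℝ, 0 ≤ s ∧ s < r ∧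
    ∀ t : ℝ, s < t → t ≤ r → inside c t = inside c r

/-- MANY: a large disc holds many lattice points. -/
def S_MANY : Prop :=
  ∀ (c : ℝ × ℝ) (r : ℝ) (n : ℕ), (inside c r).ncard ≤ n → r ≤ Real.sqrt n + 1

/-- GROW: from a point with different distances to different lattice points the count takes
every larger value. -/
def S_GROW : Prop :=
  ∀ (c : ℝ × ℝ), (∀ p q : ℤ × ℤ, dsq c p = dsq c q → p = q) →
    ∀ (r : ℝ) (n : ℕ), 0 < r → (inside c r).ncard ≤ n →
      ∃ r' : ℝ, r ≤ r' ∧ (inside c r').ncard = n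

/-- LIM: a disc with at most `n` lattice points has radius at most `R_n`. -/
def S_LIM : Prop :=
  ∀ (c : ℝ × ℝ) (r : ℝ) (n : ℕ), 0 < r → (inside c r).ncard ≤ n → r ≤ Rsup n

/-- POS: `R_n` is positive and at most `√n + 1`. -/
def S_POS : Prop := ∀ n : ℕ, 0 < Rsup n ∧ Rsup n ≤ Real.sqrt n + 1

/-- CPT: some disc of radius `R_n` holds at most `n` lattice points. -/
def S_CPT : Prop := ∀ n : ℕ, ∃ c : ℝ × ℝ, (inside c (Rsup n)).ncard ≤ n

/-- STEP: `R_n` is nondecreasing, `0` is an MC number, and `R_(n+1) = R_n` if `n + 1` is no MC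
number. -/
def S_STEP : Prop :=
  (∀ n : ℕ, Rsup n ≤ Rsup (n + 1)) ∧ MC 0 ∧ ∀ n : ℕ, ¬ MC (n + 1) → Rsup (n + 1) = Rsup n

/-- RUN: a run of `L` non-MC numbers from `n + 1` on forces a circle of radius `R_n` with at
least `L + 1` lattice points on it. -/
def S_RUN : Prop :=
  ∀ n L : ℕ, (∀ j < L, ¬ MC (n + 1 + j)) → ∃ c : ℝ × ℝ,
    (inside c (Rsup n)).ncard ≤ n ∧ L + 1 ≤ (onCircle c (Rsup n)).ncard

/-- TRI: three lattice points on a circle: the lattice points of the circle inject into the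
integer points with `x² + y² = M`, where `M ≤ 64 r⁶`. -/
def S_TRI : Prop :=
  ∀ (c : ℝ × ℝ) (r : ℝ), 0 < r → 3 ≤ (onCircle c r).ncard → ∃ M : ℕ, 0 < M ∧
    (M : ℝ) ≤ 64 * r ^ 6 ∧
    (onCircle c r).ncard ≤ Nat.card {x : ℤ × ℤ // x.1 ^ 2 + x.2 ^ 2 = (M : ℤ)}

/-- CIRC: a circle of radius `r` holds at most `C (r + 1)^ε` lattice points. -/
def S_CIRC : Prop :=
  ∀ ε : ℝ, 0 < ε → ∃ C : ℝ, 0 < C ∧ ∀ (c : ℝ × ℝ) (r : ℝ), 0 < r →
    ((onCircle c r).ncard : ℝ) ≤ C * (r + 1) ^ ε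

/-- The theorem: a run of `L` non-MC numbers from `m` on has `L ≤ C (m + 1)^ε`. -/
def S_MAIN : Prop :=
  ∀ ε : ℝ, 0 < ε → ∃ C : ℝ, 0 < C ∧ ∀ m L : ℕ, (∀ j < L, ¬ MC (m + j)) →
    (L : ℝ) ≤ C * ((m : ℝ) + 1) ^ ε

end Pool.Agent.Work.MP_e024c5_h27
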